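import Pool.Agent.helper52.IR.SpecB
import Pool.Agent.helper93.ER.LSM

/-!
# Row ir:LOC (MP_07c750_an): the local entropy as a measurable function
-/

set_option autoImplicit false

open scoped MatrixGroups ContDiff Topology UpperHalfPlane ComplexConjugate ENNReal
open UpperHalfPlane MeasureTheory Filter Set

namespace Pool.Agent.IR

open Pool.Agent.RS
open Pool.Agent.EN (XG MG mkX mkM fl pr)
open Pool.Agent.ER (Low LowJ Bow)

noncomputable section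

theorem LOC_bow {Γ : Subgroup SL(2, ℝ)} {δ δ' : ℝ} (h : δ ≤ δ') (n : ℕ) (x : XG Γ) : Bow Γ δ n x ⊆ Bow Γ δ' n x := by
  rintro y ⟨g, k, hx, hy, hb⟩
  exact ⟨g, k, hx, hy, fun t ht i j => (hb t ht i j).trans_le h⟩

theorem LOC_mono {Γ : Subgroup SL(2, ℝ)} {μ : Measure (XG Γ)} {s t : ℝ} (h : s ≤ t) {x : XG Γ} (hx : x ∈ Low Γ μ s) :
    x ∈ Low Γ μ t := by
  intro δ hδ ε hε
  refine (hx δ hδ ε hε).mono fun n hn => le_trans (Real.exp_le_exp.2 ?_) hn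
  have hn0 : (0 : ℝ) ≤ (n : ℝ) := Nat.cast_nonneg n
  nlinarith

theorem LOC_right {Γ : Subgroup SL(2, ℝ)} {μ : Measure (XG Γ)} {t : ℝ} {x : XG Γ} (hx : ∀ ε : ℝ, 0 < ε → x ∈ Low Γ μ (t + ε)) :
    x ∈ Low Γ μ t := by
  intro δ hδ ε hε
  refine (hx (ε / 2) (by linarith) δ hδ (ε / 2) (by linarith)).mono fun n hn => le_trans (le_of_eq ?_) hn
  congr 1
  ring

theorem LOC_le (Γ : Subgroup SL(2, ℝ)) (μ : Measure (XG Γ)) (x : XG Γ) : loc Γ μ x ≤ 1 := by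
  refine csInf_le ⟨0, ?_⟩ (Or.inr rfl)
  rintro t (ht | ht)
  · exact ht.1
  · rw [show t = 1 from ht]; exact zero_le_one

theorem LOC_nonneg (Γ : Subgroup SL(2, ℝ)) (μ : Measure (XG Γ)) (x : XG Γ) : 0 ≤ loc Γ μ x := by
  refine le_csInf ⟨1, Or.inr rfl⟩ ?_
  rintro t (ht | ht)
  · exact ht.1
  · rw [show t = 1 from ht]; exact zero_le_one

theorem LOC_iff (Γ : Subgroup SL(2, ℝ)) (μ : Measure (XG Γ)) (t : ℝ) (h0 : 0 ≤ t) (h1 : t < 1) (x : XG Γ) :
    loc Γ μ x ≤ t ↔ x ∈ Low Γ μ t := by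
  constructor
  · intro hx
    refine LOC_right fun ε hε => ?_
    obtain ⟨ε', hε', hε1, hε2⟩ : ∃ ε' : ℝ, 0 < ε' ∧ ε' ≤ ε ∧ t + ε' ≤ 1 := ⟨min ε (1 - t), lt_min hε (by linarith), min_le_left _ _, by
      have := min_le_right ε (1 - t); linarith⟩
    have h2 : loc Γ μ x < t + ε' := by linarith
    obtain ⟨s, hs, hst⟩ := exists_lt_of_csInf_lt (⟨1, Or.inr rfl⟩ : ({t : ℝ | 0 ≤ t ∧ x ∈ Low Γ μ t} ∪ {1}).Nonempty) h2
    rcases hs with hs | hs
    · exact LOC_mono (by linarith) hs.2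
    · have : s = 1 := hs
      linarith
  · intro hx
    refine csInf_le ⟨0, ?_⟩ (Or.inl ⟨h0, hx⟩)
    rintro t (ht | ht)
    · exact ht.1
    · rw [show t = 1 from ht]; exact zero_le_one

theorem LOC_meas (hXFL : EN.XFL_stmt) (hXTX : EN.XTX_stmt) (Γ : Subgroup SL(2, ℝ)) (μ : Measure (XG Γ)) (hΓ : QU.SurfaceGroup Γ)
    [IsProbabilityMeasure μ] (s : ℝ) : MeasurableSet (Low Γ μ s) := by
  obtain ⟨hX1, hX2, hX3⟩ := hXTX Γ hΓ
  have hmeas : ∀ (δ : ℝ) (n : ℕ), Measurable fun x => μ (Bow Γ δ n x) := by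
    intro δ n
    have h1 : MeasurableSet {p : XG Γ × XG Γ | p.2 ∈ Bow Γ δ n p.1} := (ER.LSM_openR hXFL Γ δ n).measurableSet
    exact measurable_measure_prodMk_left h1
  have key : Low Γ μ s = ⋂ j : ℕ, ⋂ N : ℕ, ⋃ n : ℕ, {x | N ≤ n ∧
      Real.exp (-((s + 1 / ((j : ℝ) + 1)) * (2 * n))) ≤ μ.real (Bow Γ (1 / ((j : ℝ) + 1)) n x)} := by
    ext x
    constructor
    · intro hx
      refine Set.mem_iInter.2 fun j => Set.mem_iInter.2 fun N => Set.mem_iUnion.2 ?_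
      have hj : 0 < 1 / ((j : ℝ) + 1) := by positivity
      obtain ⟨n, hn, hn'⟩ := Filter.frequently_atTop.1 (hx _ hj _ hj) N
      exact ⟨n, hn, hn'⟩
    · intro hx δ hδ ε hε
      obtain ⟨j, hj⟩ := exists_nat_one_div_lt (lt_min hδ hε)
      have hjδ : 1 / ((j : ℝ) + 1) ≤ δ := hj.le.trans (min_le_left _ _)
      have hjε : 1 / ((j : ℝ) + 1) ≤ ε := hj.le.trans (min_le_right _ _)
      refine Filter.frequently_atTop.2 fun N => ?_
      obtain ⟨n, hn, hn'⟩ := Set.mem_iUnion.1 (Set.mem_iInter.1 (Set.mem_iInter.1 hx j) N)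
      refine ⟨n, hn, le_trans (Real.exp_le_exp.2 ?_) (hn'.trans (measureReal_mono (LOC_bow hjδ n x) (measure_ne_top _ _)))⟩
      have hn0 : (0 : ℝ) ≤ (n : ℝ) := Nat.cast_nonneg n
      nlinarith
  rw [key]
  refine MeasurableSet.iInter fun j => MeasurableSet.iInter fun N => MeasurableSet.iUnion fun n => ?_
  exact (MeasurableSet.const _).inter (measurableSet_le measurable_const (hmeas _ n).ennreal_toReal)

/-- **Row LOC.** -/
theorem LOC_proof (hXFL : EN.XFL_stmt) (hXTX : EN.XTX_stmt) : LOC_stmt := by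
  intro Γ μ hΓ hμ
  refine ⟨?_, fun x => ⟨LOC_nonneg Γ μ x, LOC_le Γ μ x⟩, fun t h0 h1 => Set.ext fun x => LOC_iff Γ μ t h0 h1 x⟩
  refine measurable_of_Iic fun a => ?_
  rcases lt_or_ge a 0 with ha | ha
  · have h1 : loc Γ μ ⁻¹' Iic a = ∅ := by
      refine Set.eq_empty_iff_forall_notMem.2 fun x hx => ?_
      have h2 : loc Γ μ x ≤ a := hx
      have h3 := LOC_nonneg Γ μ x
      linarith
    rw [h1]
    exact MeasurableSet.empty
  · rcases lt_or_ge a 1 with hb | hb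
    · have h1 : loc Γ μ ⁻¹' Iic a = Low Γ μ a := Set.ext fun x => LOC_iff Γ μ a ha hb x
      rw [h1]
      exact LOC_meas hXFL hXTX Γ μ hΓ a
    · have h1 : loc Γ μ ⁻¹' Iic a = Set.univ := Set.eq_univ_of_forall fun x => (LOC_le Γ μ x).trans hb
      rw [h1]
      exact MeasurableSet.univ

end

end Pool.Agent.IR

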