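import Pool.Agent.helper52.IR.Spec

/-!
# Row ir:TRF (MP_07c750_an): linearisation in a block
-/

set_option autoImplicit false

open scoped MatrixGroups ContDiff Topology UpperHalfPlane ComplexConjugate
open UpperHalfPlane MeasureTheory Filter Set

namespace Pool.Agent.IR

open Pool.Agent.RS

theorem TRF_T3 {w X x : ℝ} (hw : |w| ≤ 1 / 16) (hX : |X| ≤ 2) (hx : |x| ≤ 3) :
    |X / (1 - w * X) - x / (1 - w * x) - om w x * (X - x)| ≤ 11 / 100 * (X - x) ^ 2 := by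
  have hwX : |w * X| ≤ 1 / 8 := by
    rw [abs_mul]
    calc |w| * |X| ≤ 1 / 16 * 2 := mul_le_mul hw hX (abs_nonneg _) (by norm_num)
      _ = 1 / 8 := by norm_num
  have hwx : |w * x| ≤ 3 / 16 := by
    rw [abs_mul]
    calc |w| * |x| ≤ 1 / 16 * 3 := mul_le_mul hw hx (abs_nonneg _) (by norm_num)
      _ = 3 / 16 := by norm_num
  rw [abs_le] at hwX hwx
  have hA : 7 / 8 ≤ 1 - w * X := by linarith [hwX.2]
  have hB : 13 / 16 ≤ 1 - w * x := by linarith [hwx.2]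
  have hA0 : 1 - w * X ≠ 0 := by linarith
  have hB0 : 1 - w * x ≠ 0 := by linarith
  have e : X / (1 - w * X) - x / (1 - w * x) - om w x * (X - x) = w * (X - x) ^ 2 / ((1 - w * X) * (1 - w * x) ^ 2) := by
    have e0 : ∀ A B : ℝ, A ≠ 0 → B ≠ 0 → X / A - x / B - 1 / B ^ 2 * (X - x) = (X * B ^ 2 - x * A * B - (X - x) * A) / (A * B ^ 2) := by
      intro A B hA hB
      field_simp
    unfold om
    rw [e0 _ _ hA0 hB0]
    congr 1
    ring
  have hB2 : (13 / 16 : ℝ) ^ 2 ≤ (1 - w * x) ^ 2 := pow_le_pow_left₀ (by norm_num) hB 2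
  have hAB : 7 / 8 * (13 / 16 : ℝ) ^ 2 ≤ (1 - w * X) * (1 - w * x) ^ 2 := mul_le_mul hA hB2 (by norm_num) (by linarith)
  have hABpos : 0 < (1 - w * X) * (1 - w * x) ^ 2 := by
    refine lt_of_lt_of_le ?_ hAB
    norm_num
  rw [e, abs_div, abs_of_pos hABpos, div_le_iff₀ hABpos, abs_mul, abs_of_nonneg (sq_nonneg (X - x))]
  have h1 : |w| * (X - x) ^ 2 ≤ 1 / 16 * (X - x) ^ 2 := mul_le_mul_of_nonneg_right hw (sq_nonneg _)
  have h2 : (X - x) ^ 2 * (7 / 8 * (13 / 16 : ℝ) ^ 2) ≤ (X - x) ^ 2 * ((1 - w * X) * (1 - w * x) ^ 2) :=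
    mul_le_mul_of_nonneg_left hAB (sq_nonneg _)
  nlinarith [sq_nonneg (X - x)]

theorem TRF_om {w x : ℝ} (hw : |w| ≤ 1 / 16) (hx : |x| ≤ 3) : 709 / 1000 ≤ om w x ∧ om w x ≤ 152 / 100 := by
  have hwx : |w * x| ≤ 3 / 16 := by
    rw [abs_mul]
    calc |w| * |x| ≤ 1 / 16 * 3 := mul_le_mul hw hx (abs_nonneg _) (by norm_num)
      _ = 3 / 16 := by norm_num
  rw [abs_le] at hwx
  have hB : 13 / 16 ≤ 1 - w * x := by linarith [hwx.2]
  have hB' : 1 - w * x ≤ 19 / 16 := by linarith [hwx.1]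
  have hB2 : (13 / 16 : ℝ) ^ 2 ≤ (1 - w * x) ^ 2 := pow_le_pow_left₀ (by norm_num) hB 2
  have hB3 : (1 - w * x) ^ 2 ≤ (19 / 16 : ℝ) ^ 2 := pow_le_pow_left₀ (by linarith) hB' 2
  have hpos : 0 < (1 - w * x) ^ 2 := by positivity
  unfold om
  constructor
  · rw [le_div_iff₀ hpos]
    nlinarith
  · rw [div_le_iff₀ hpos]
    nlinarith

theorem TRF_dif {w w' x L : ℝ} (hw : |w| ≤ 1 / 16) (hw' : |w'| ≤ 1 / 16) (hx : |x| ≤ 3) (hL : 0 < L) (hww : |w' - w| ≤ 1 / L) :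
    |om w x - om w' x| ≤ 164 / 10 / L := by
  have hwx : |w * x| ≤ 3 / 16 := by
    rw [abs_mul]
    calc |w| * |x| ≤ 1 / 16 * 3 := mul_le_mul hw hx (abs_nonneg _) (by norm_num)
      _ = 3 / 16 := by norm_num
  have hwx' : |w' * x| ≤ 3 / 16 := by
    rw [abs_mul]
    calc |w'| * |x| ≤ 1 / 16 * 3 := mul_le_mul hw' hx (abs_nonneg _) (by norm_num)
      _ = 3 / 16 := by norm_num
  rw [abs_le] at hwx hwx'
  have hB : 13 / 16 ≤ 1 - w * x := by linarith [hwx.2]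
  have hB' : 1 - w * x ≤ 19 / 16 := by linarith [hwx.1]
  have hC : 13 / 16 ≤ 1 - w' * x := by linarith [hwx'.2]
  have hC' : 1 - w' * x ≤ 19 / 16 := by linarith [hwx'.1]
  have hB0 : 1 - w * x ≠ 0 := by linarith
  have hC0 : 1 - w' * x ≠ 0 := by linarith
  have e : om w x - om w' x = (w - w') * x * ((1 - w * x) + (1 - w' * x)) / ((1 - w * x) ^ 2 * (1 - w' * x) ^ 2) := by
    have e0 : ∀ A B : ℝ, A ≠ 0 → B ≠ 0 → 1 / A ^ 2 - 1 / B ^ 2 = (B ^ 2 - A ^ 2) / (A ^ 2 * B ^ 2) := by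
      intro A B hA hB
      field_simp
    unfold om
    rw [e0 _ _ hB0 hC0]
    congr 1
    ring
  have hB2 : (13 / 16 : ℝ) ^ 2 ≤ (1 - w * x) ^ 2 := pow_le_pow_left₀ (by norm_num) hB 2
  have hC2 : (13 / 16 : ℝ) ^ 2 ≤ (1 - w' * x) ^ 2 := pow_le_pow_left₀ (by norm_num) hC 2
  have hBC : (13 / 16 : ℝ) ^ 2 * (13 / 16 : ℝ) ^ 2 ≤ (1 - w * x) ^ 2 * (1 - w' * x) ^ 2 := mul_le_mul hB2 hC2 (by norm_num) (by positivity)
  have hpos : 0 < (1 - w * x) ^ 2 * (1 - w' * x) ^ 2 := lt_of_lt_of_le (by norm_num) hBC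
  have hnum : |(w - w') * x * ((1 - w * x) + (1 - w' * x))| ≤ 1 / L * 3 * (19 / 8) := by
    rw [abs_mul, abs_mul]
    refine mul_le_mul (mul_le_mul ?_ hx (abs_nonneg _) (by positivity)) ?_ (abs_nonneg _) (by positivity)
    · rw [abs_sub_comm]
      exact hww
    · rw [abs_le]
      constructor <;> linarith
  rw [e, abs_div, abs_of_pos hpos, div_le_iff₀ hpos]
  refine hnum.trans ?_
  have h1 : 164 / 10 / L * ((13 / 16 : ℝ) ^ 2 * (13 / 16 : ℝ) ^ 2) ≤ 164 / 10 / L * ((1 - w * x) ^ 2 * (1 - w' * x) ^ 2) :=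
    mul_le_mul_of_nonneg_left hBC (by positivity)
  refine le_trans ?_ h1
  have h2 : (0 : ℝ) < 1 / L := by positivity
  have e2 : 164 / 10 / L * ((13 / 16 : ℝ) ^ 2 * (13 / 16 : ℝ) ^ 2) = 1 / L * (164 / 10 * ((13 / 16 : ℝ) ^ 2 * (13 / 16 : ℝ) ^ 2)) := by ring
  rw [e2, mul_assoc]
  refine mul_le_mul_of_nonneg_left ?_ h2.le
  norm_num

theorem TRF_core {εc ε2 w w' κ' c0 lam X x L q ξ J : ℝ} (hεc : 0 < εc) (hε2 : ε2 = 2 * εc / Real.pi) (hw : |w| ≤ 1 / 16) (hw' : |w'| ≤ 1 / 16)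
    (hL : 1 ≤ L) (hww : |w' - w| ≤ 1 / L) (hl1 : 1 / 2 ≤ lam) (hl2 : lam ≤ 2) (hk1 : 1 / lam ≤ κ') (hk2 : κ' ≤ 1 / lam * (1 + 1 / L)) (hX : |X| ≤ 2)
    (hx : |x| ≤ 3) (hXx : (X - x) ^ 2 ≤ ε2) (hXL : X - x ≤ L * ε2) (hq0 : 0 ≤ q) (hq1 : q ≤ (X - x) / ε2) (hq2 : (X - x) / ε2 < q + 1)
    (hc : |X / (1 - w * X) - (c0 + lam * (J * εc))| ≤ 20 * εc) (hξ : |ξ - Real.pi * J / 2| ≤ 1 / 2) :
    |ξ - (1 / lam / ε2 * (x / (1 - w * x) - c0) + κ' * om w' x * q)| ≤ 110 ∧ 35 / 100 ≤ κ' * om w' x := by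
  have hpi := Real.pi_pos
  have hε20 : 0 < ε2 := by rw [hε2]; positivity
  have hL0 : 0 < L := by linarith
  have hlam : 0 < lam := by linarith
  obtain ⟨κ, hκ⟩ : ∃ κ : ℝ, κ = 1 / lam := ⟨_, rfl⟩
  rw [← hκ] at hk1 hk2 ⊢
  have hκ1 : 1 / 2 ≤ κ := by
    rw [hκ, div_le_div_iff₀ (by norm_num) hlam]
    linarith
  have hκ2 : κ ≤ 2 := by
    rw [hκ, div_le_iff₀ hlam]
    linarith
  obtain ⟨ho1, ho2⟩ := TRF_om hw hx
  obtain ⟨ho1', ho2'⟩ := TRF_om hw' hx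
  have hod := TRF_dif hw hw' hx hL0 hww
  have hT3 := TRF_T3 hw hX hx
  refine ⟨?_, by nlinarith⟩
  have hqL : q ≤ L := by
    refine hq1.trans ?_
    rw [div_le_iff₀ hε20]
    exact hXL
  -- the second term
  have h2 : |Real.pi * J / 2 - κ / ε2 * (X / (1 - w * X) - c0)| ≤ 63 := by
    have e : Real.pi * J / 2 - κ / ε2 * (X / (1 - w * X) - c0) = -(κ / ε2 * (X / (1 - w * X) - (c0 + lam * (J * εc)))) := by
      rw [hκ, hε2]
      field_simp
      ring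
    rw [e, abs_neg, abs_mul, abs_of_pos (by positivity)]
    have h3 : κ / ε2 * |X / (1 - w * X) - (c0 + lam * (J * εc))| ≤ κ / ε2 * (20 * εc) := mul_le_mul_of_nonneg_left hc (by positivity)
    refine h3.trans ?_
    have e2 : κ / ε2 * (20 * εc) = κ * (10 * Real.pi) := by
      rw [hε2]
      field_simp
      ring
    rw [e2]
    have := Real.pi_lt_d2
    nlinarith
  have h3 : |κ / ε2 * (X / (1 - w * X) - x / (1 - w * x) - om w x * (X - x))| ≤ 22 / 100 := by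
    rw [abs_mul, abs_of_pos (by positivity)]
    have h4 : κ / ε2 * |X / (1 - w * X) - x / (1 - w * x) - om w x * (X - x)| ≤ κ / ε2 * (11 / 100 * ε2) :=
      mul_le_mul_of_nonneg_left (hT3.trans (by linarith)) (by positivity)
    refine h4.trans ?_
    have e2 : κ / ε2 * (11 / 100 * ε2) = κ * (11 / 100) := by
      field_simp
    rw [e2]
    linarith
  have h4 : |κ * om w x * ((X - x) / ε2 - q)| ≤ 304 / 100 := by
    rw [abs_mul, abs_of_pos (by positivity)]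
    have h5 : |(X - x) / ε2 - q| ≤ 1 := by
      rw [abs_le]
      constructor <;> linarith
    calc κ * om w x * |(X - x) / ε2 - q| ≤ 2 * (152 / 100) * 1 :=
          mul_le_mul (mul_le_mul hκ2 ho2 (by linarith) (by norm_num)) h5 (abs_nonneg _) (by norm_num)
      _ = 304 / 100 := by norm_num
  have h5 : |(κ * om w x - κ' * om w' x) * q| ≤ 36 := by
    have e : κ * om w x - κ' * om w' x = κ * (om w x - om w' x) - (κ' - κ) * om w' x := by ring
    have h6 : |κ * om w x - κ' * om w' x| ≤ 36 / L := by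
      rw [e]
      refine (abs_sub _ _).trans ?_
      rw [abs_mul, abs_mul, abs_of_pos (show 0 < κ by linarith), abs_of_nonneg (sub_nonneg.2 hk1), abs_of_pos (show 0 < om w' x by linarith)]
      have h7 : κ' - κ ≤ 2 / L := by
        have : κ * (1 + 1 / L) = κ + κ / L := by ring
        have h8 : κ / L ≤ 2 / L := div_le_div_of_nonneg_right hκ2 hL0.le
        linarith
      have h8 : κ * |om w x - om w' x| ≤ 2 * (164 / 10 / L) := mul_le_mul hκ2 hod (abs_nonneg _) (by norm_num)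
      have h9 : (κ' - κ) * om w' x ≤ 2 / L * (152 / 100) := mul_le_mul h7 ho2' (by linarith) (by positivity)
      have h10 : 2 * (164 / 10 / L) + 2 / L * (152 / 100) ≤ 36 / L := by
        have e3 : 2 * (164 / 10 / L) + 2 / L * (152 / 100) = (2 * (164 / 10) + 2 * (152 / 100)) / L := by ring
        rw [e3]
        exact div_le_div_of_nonneg_right (by norm_num) hL0.le
      linarith
    rw [abs_mul, abs_of_nonneg hq0]
    calc |κ * om w x - κ' * om w' x| * q ≤ 36 / L * L := mul_le_mul h6 hqL hq0 (by positivity)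
      _ = 36 := by field_simp
  have e : ξ - (κ / ε2 * (x / (1 - w * x) - c0) + κ' * om w' x * q) =
      (ξ - Real.pi * J / 2) + (Real.pi * J / 2 - κ / ε2 * (X / (1 - w * X) - c0)) +
        κ / ε2 * (X / (1 - w * X) - x / (1 - w * x) - om w x * (X - x)) + κ * om w x * ((X - x) / ε2 - q) +
        (κ * om w x - κ' * om w' x) * q := by
    have e1 : κ * om w x * ((X - x) / ε2 - q) = κ / ε2 * (om w x * (X - x)) - κ * om w x * q := by
      ring
    rw [e1]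
    ring
  rw [e]
  rw [abs_le] at hξ h2 h3 h4 h5 ⊢
  constructor <;> linarith [hξ.1, hξ.2, h2.1, h2.2, h3.1, h3.2, h4.1, h4.2, h5.1, h5.2]

theorem TRF_proof : TRF_stmt := by
  intro εc ε2 w w' κ' c0 lam X p L j hεc hε2 hw hw' hL hww hl1 hl2 hk1 hk2 hX hE4 hE2 hc ξ hξ
  have hL1 : (1 : ℝ) ≤ L := by exact_mod_cast hL
  have hε20 : 0 < ε2 := by rw [hε2]; positivity
  obtain ⟨E, hE⟩ : ∃ E : ℝ, E = Real.exp (-(2 * (p : ℝ))) := ⟨_, rfl⟩
  have hE0 : 0 < E := by rw [hE]; exact Real.exp_pos _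
  have hE1 : E ≤ 1 := by
    rw [hE, Real.exp_le_one_iff]
    have : (0 : ℝ) ≤ p := Nat.cast_nonneg p
    linarith
  have hEE : Real.exp (-(4 * (p : ℝ))) = E ^ 2 := by
    rw [hE, ← Real.exp_nat_mul]
    congr 1
    push_cast
    ring
  have hEi : Real.exp (2 * (p : ℝ)) * E = 1 := by
    rw [hE, ← Real.exp_add]
    rw [add_neg_cancel, Real.exp_zero]
  rw [hEE] at hE4
  rw [← hE] at hE2 ⊢
  obtain ⟨x, hx⟩ : ∃ x : ℝ, x = ⌊X * Real.exp (2 * (p : ℝ))⌋ * E := ⟨_, rfl⟩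
  rw [← hx]
  have hx1 : x ≤ X := by
    have h1 := mul_le_mul_of_nonneg_right (Int.floor_le (X * Real.exp (2 * (p : ℝ)))) hE0.le
    rw [mul_assoc, hEi, mul_one] at h1
    rw [hx]
    exact h1
  have hx2 : X < x + E := by
    have h1 := mul_lt_mul_of_pos_right (Int.lt_floor_add_one (X * Real.exp (2 * (p : ℝ)))) hE0
    rw [mul_assoc, hEi, mul_one, add_mul, one_mul, ← hx] at h1
    exact h1
  have hX' := abs_le.1 hX
  have hx3 : |x| ≤ 3 := by
    rw [abs_le]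
    constructor <;> linarith [hX'.1, hX'.2]
  have hXx : (X - x) ^ 2 ≤ ε2 := by
    refine le_trans ?_ hE4
    exact pow_le_pow_left₀ (by linarith) (by linarith) 2
  obtain ⟨q, hq⟩ : ∃ q : ℤ, q = ⌊(X - x) / ε2⌋ := ⟨_, rfl⟩
  rw [← hq]
  have hq1 : (q : ℝ) ≤ (X - x) / ε2 := by rw [hq]; exact Int.floor_le _
  have hq2 : (X - x) / ε2 < q + 1 := by rw [hq]; exact Int.lt_floor_add_one _
  have hq0 : (0 : ℝ) ≤ q := by
    have : 0 ≤ q := by
      rw [hq]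
      exact Int.floor_nonneg.2 (div_nonneg (by linarith) hε20.le)
    exact_mod_cast this
  obtain ⟨h1, h2⟩ := TRF_core hεc hε2 hw hw' hL1 hww hl1 hl2 hk1 hk2 hX hx3 hXx (by linarith) hq0 hq1 hq2 hc hξ
  obtain ⟨s, hs⟩ : ∃ s : ℝ, s = κ' * om w' x := ⟨_, rfl⟩
  obtain ⟨cI, hcI⟩ : ∃ cI : ℝ, cI = 1 / lam / ε2 * (x / (1 - w * x) - c0) := ⟨_, rfl⟩
  rw [← hs] at h1 h2 ⊢
  rw [← hcI] at h1 ⊢
  have hs0 : 0 < s := by linarith
  refine ⟨⌊(ξ - cI) / s⌋ - q, ?_, ?_, ?_⟩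
  · have h3 : |(ξ - cI) / s - q| ≤ 110 / (35 / 100) := by
      have e : (ξ - cI) / s - q = (ξ - (cI + s * q)) / s := by
        field_simp
        ring
      rw [e, abs_div, abs_of_pos hs0]
      exact div_le_div₀ (by norm_num) h1 (by norm_num) h2
    have h4 := Int.floor_le ((ξ - cI) / s)
    have h5 := Int.lt_floor_add_one ((ξ - cI) / s)
    rw [abs_le] at h3
    have h6 : (-400 : ℝ) ≤ ((⌊(ξ - cI) / s⌋ - q : ℤ) : ℝ) := by
      push_cast
      have := h3.1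
      have e : (110 : ℝ) / (35 / 100) ≤ 399 := by norm_num
      linarith
    have h7 : ((⌊(ξ - cI) / s⌋ - q : ℤ) : ℝ) ≤ 400 := by
      push_cast
      have := h3.2
      have e : (110 : ℝ) / (35 / 100) ≤ 399 := by norm_num
      linarith
    rw [abs_le]
    constructor
    · exact_mod_cast h6
    · exact_mod_cast h7
  · have h4 := Int.floor_le ((ξ - cI) / s)
    rw [le_div_iff₀ hs0] at h4
    have e : ((q + (⌊(ξ - cI) / s⌋ - q) : ℤ) : ℝ) = (⌊(ξ - cI) / s⌋ : ℝ) := by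
      push_cast
      ring
    rw [e]
    linarith
  · have h5 := Int.lt_floor_add_one ((ξ - cI) / s)
    rw [div_lt_iff₀ hs0] at h5
    have e : ((q + (⌊(ξ - cI) / s⌋ - q) : ℤ) : ℝ) = (⌊(ξ - cI) / s⌋ : ℝ) := by
      push_cast
      ring
    rw [e]
    linarith

end Pool.Agent.IR

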